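import Mathlib

namespace Q224.Arb

open Polynomial

/-- `Φ_N f = ∑ f_j (1+X)^(N-j)` -/
noncomputable def Phi (N : ℕ) (f : ℤ[X]) : ℤ[X] := (reflect N f).comp (1 + X)

lemma Phi_mul {f g : ℤ[X]} {F G : ℕ} (hf : f.natDegree ≤ F) (hg : g.natDegree ≤ G) :
    Phi (F + G) (f * g) = Phi F f * Phi G g := by
  unfold Phi; rw [reflect_mul _ _ hf hg, mul_comp]

lemma Phi_add (N : ℕ) (f g : ℤ[X]) : Phi N (f + g) = Phi N f + Phi N g := by
  unfold Phi; rw [reflect_add, add_comp]

lemma Phi_one (N : ℕ) : Phi N 1 = (1 + X) ^ N := by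
  unfold Phi; rw [reflect_one]; simp

lemma Phi_raise {f : ℤ[X]} {N : ℕ} (k : ℕ) (hf : f.natDegree ≤ N) :
    Phi (N + k) f = Phi N f * (1 + X) ^ k := by
  have := Phi_mul (g := 1) (G := k) hf (by simp)
  rw [mul_one, Phi_one] at this
  exact this

lemma Phi_one_sub : Phi 1 (1 - X) = X := by
  unfold Phi
  rw [reflect_sub, reflect_one, reflect_one_X]
  simp

lemma natDegree_one_sub_pow (b : ℕ) : ((1 - X : ℤ[X]) ^ b).natDegree ≤ b := by
  refine natDegree_pow_le.trans ?_
  have : (1 - X : ℤ[X]).natDegree ≤ 1 := by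
    refine (natDegree_sub_le _ _).trans ?_
    simp
  nlinarith

lemma Phi_pow_one_sub (b : ℕ) : Phi b ((1 - X) ^ b) = X ^ b := by
  induction b with
  | zero => simp [Phi_one]
  | succ b ih =>
    rw [pow_succ, pow_succ, Phi_mul (natDegree_one_sub_pow b) (by
      have := natDegree_one_sub_pow 1; simpa using this), ih, Phi_one_sub]

lemma Phi_X_pow_mul {f : ℤ[X]} {N : ℕ} (k : ℕ) (hf : f.natDegree ≤ N) :
    Phi (N + k) (X ^ k * f) = Phi N f := by
  rw [mul_comm, Phi_mul hf (by simp)]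
  have : Phi k (X ^ k) = 1 := by
    unfold Phi; rw [reflect_monomial, revAt_le le_rfl]; simp
  rw [this, mul_one]

lemma natDegree_reflect_le' (N : ℕ) {f : ℤ[X]} (hf : f.natDegree ≤ N) :
    (reflect N f).natDegree ≤ N := by
  rw [natDegree_le_iff_coeff_eq_zero]
  intro M hM
  rw [coeff_reflect]
  have : revAt N M = M := by
    rw [← revAtFun_eq]
    unfold revAtFun
    rw [if_neg (by omega)]
  rw [this]
  exact coeff_eq_zero_of_natDegree_lt (by omega)

lemma natDegree_Phi (N : ℕ) {f : ℤ[X]} (hf : f.natDegree ≤ N) : (Phi N f).natDegree ≤ N := by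
  unfold Phi
  refine natDegree_comp_le.trans ?_
  have h1 : (1 + X : ℤ[X]).natDegree ≤ 1 := by
    refine (natDegree_add_le _ _).trans ?_
    simp
  have h2 := natDegree_reflect_le' N hf
  nlinarith

lemma Phi_coeff_zero (N : ℕ) (f : ℤ[X]) (hf : f.natDegree ≤ N) :
    (Phi N f).coeff 0 = ∑ s ∈ Finset.range (N + 1), f.coeff s := by
  unfold Phi
  rw [coeff_zero_eq_eval_zero, eval_comp]
  simp only [eval_add, eval_one, eval_X, add_zero]
  rw [eval_eq_sum_range' (n := N + 1)]
  · simp only [one_pow, mul_one]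
    rw [← Finset.sum_range_reflect]
    apply Finset.sum_congr rfl
    intro s hs
    rw [Finset.mem_range] at hs
    rw [coeff_reflect, revAt_le (by omega)]
    congr 1
    omega
  · have h2 := natDegree_reflect_le' N hf
    omega

/-- The main algebraic step. -/
theorem alg_step (m b e : ℕ) (hb : 1 ≤ b) (Nf f : ℤ[X]) (hN : Nf.natDegree ≤ m * e)
    (hf : ∀ s, f.coeff s = if s ≤ m * (b + e) then
      PowerSeries.coeff s ((PowerSeries.mk (fun _ => (1 : ℤ))) ^ b * (Nf : PowerSeries ℤ)) else 0)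
    (s : ℕ) :
    (X ^ (b + e) * Phi (m * (b + e)) f).coeff s =
      if b + e ≤ s then ((1 + X) ^ ((m + 1) * b) * (X ^ e * Phi (m * e) Nf)).coeff s else 0 := by
  set K := m * (b + e) with hK
  have hfd : f.natDegree ≤ K := by
    rw [natDegree_le_iff_coeff_eq_zero]
    intro M hM
    rw [hf, if_neg (by omega)]
  set P : PowerSeries ℤ := (PowerSeries.mk (fun _ => (1 : ℤ))) ^ b * (Nf : PowerSeries ℤ) with hP
  have hmk : (PowerSeries.mk (fun _ => (1 : ℤ))) * (1 - PowerSeries.X) = 1 :=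
    PowerSeries.mk_one_mul_one_sub_eq_one ℤ
  have hPN : (1 - PowerSeries.X) ^ b * P = (Nf : PowerSeries ℤ) := by
    rw [hP, ← mul_assoc, ← mul_pow, mul_comm (1 - PowerSeries.X), hmk, one_pow, one_mul]
  set g : ℤ[X] := Nf - (1 - X) ^ b * f with hg
  have hdvd : (X : ℤ[X]) ^ (K + 1) ∣ g := by
    rw [X_pow_dvd_iff]
    have h1 : (PowerSeries.X : PowerSeries ℤ) ^ (K + 1) ∣ (P - (f : PowerSeries ℤ)) := by
      rw [PowerSeries.X_pow_dvd_iff]
      intro t ht
      rw [map_sub, Polynomial.coeff_coe, hf, if_pos (by omega), sub_self]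
    have h2 : (PowerSeries.X : PowerSeries ℤ) ^ (K + 1) ∣ (g : PowerSeries ℤ) := by
      have : (g : PowerSeries ℤ) = (1 - PowerSeries.X) ^ b * (P - (f : PowerSeries ℤ)) := by
        rw [mul_sub, hPN, hg]
        simp only [Polynomial.coe_sub, Polynomial.coe_mul, Polynomial.coe_pow, Polynomial.coe_one,
          Polynomial.coe_X]
      rw [this]
      exact Dvd.dvd.mul_left h1 _
    rw [PowerSeries.X_pow_dvd_iff] at h2
    intro t ht
    have := h2 t ht
    rwa [Polynomial.coeff_coe] at this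
  obtain ⟨A, hA⟩ := hdvd
  have hgd : g.natDegree ≤ K + b := by
    rw [hg]
    refine (natDegree_sub_le _ _).trans ?_
    apply max_le
    · have : m * e ≤ K := by rw [hK]; nlinarith
      omega
    · refine natDegree_mul_le.trans ?_
      have := natDegree_one_sub_pow b
      omega
  have hAd : A.natDegree ≤ b - 1 := by
    by_cases hA0 : A = 0
    · rw [hA0]; simp
    · have h3 : g.natDegree = (K + 1) + A.natDegree := by
        rw [hA, natDegree_mul (pow_ne_zero _ X_ne_zero) hA0]; simp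
      omega
  have hsum : (1 - X) ^ b * f + X ^ (K + 1) * A = Nf := by
    rw [← hA, hg]; ring
  have e1 : Phi (b + K) ((1 - X) ^ b * f) = X ^ b * Phi K f := by
    rw [Phi_mul (natDegree_one_sub_pow b) hfd, Phi_pow_one_sub]
  have e2 : Phi (b + K) (X ^ (K + 1) * A) = Phi (b - 1) A := by
    rw [show b + K = (b - 1) + (K + 1) by omega]
    exact Phi_X_pow_mul (K + 1) hAd
  have e3 : Phi (b + K) Nf = Phi (m * e) Nf * (1 + X) ^ ((m + 1) * b) := by
    rw [show b + K = m * e + (m + 1) * b by rw [hK]; ring]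
    exact Phi_raise _ hN
  have key : X ^ b * Phi K f + Phi (b - 1) A = Phi (m * e) Nf * (1 + X) ^ ((m + 1) * b) := by
    rw [← e1, ← e2, ← e3, ← Phi_add, hsum]
  have key2 : X ^ (b + e) * Phi K f =
      (1 + X) ^ ((m + 1) * b) * (X ^ e * Phi (m * e) Nf) - X ^ e * Phi (b - 1) A := by
    have : X ^ (b + e) * Phi K f = X ^ e * (X ^ b * Phi K f) := by ring
    rw [this, eq_sub_of_add_eq key]
    ring
  split_ifs with hs
  · rw [key2, coeff_sub]
    have : (X ^ e * Phi (b - 1) A).coeff s = 0 := by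
      apply coeff_eq_zero_of_natDegree_lt
      have h1 : (X ^ e * Phi (b - 1) A).natDegree ≤ e + (b - 1) := by
        refine natDegree_mul_le.trans ?_
        have := natDegree_Phi (b - 1) hAd
        simp
        omega
      omega
    rw [this, sub_zero]
  · rw [coeff_X_pow_mul', if_neg hs]

/-- product version of `Φ` -/
lemma Phi_prod {V : Type*} [DecidableEq V] (S : Finset V) (N : V → ℕ) (f : V → ℤ[X])
    (hf : ∀ c ∈ S, (f c).natDegree ≤ N c) :
    Phi (∑ c ∈ S, N c) (∏ c ∈ S, f c) = ∏ c ∈ S, Phi (N c) (f c) ∧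
      (∏ c ∈ S, f c).natDegree ≤ ∑ c ∈ S, N c := by
  induction S using Finset.induction_on with
  | empty => simp [Phi_one]
  | insert a s ha ih =>
    obtain ⟨h1, h2⟩ := ih (fun c hc => hf c (Finset.mem_insert_of_mem hc))
    rw [Finset.sum_insert ha, Finset.prod_insert ha, Finset.prod_insert ha]
    have ha' := hf a (Finset.mem_insert_self a s)
    constructor
    · rw [Phi_mul ha' h2, h1]
    · refine natDegree_mul_le.trans ?_
      omega

end Q224.Arb
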