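import Mathlib

namespace Q224.Arb

open Finset

variable {n : ℕ}

open Classical in
/-- generating function (weight `ω`) of vectors supported on `D` satisfying `p`. -/
noncomputable def gen (ω : ℕ → ℤ) (D : Finset (Fin n)) (p : (Fin n → ℕ) → Prop) : PowerSeries ℤ :=
  PowerSeries.mk (fun s => ∑ x ∈ (Finset.piAntidiag D s).filter p, ∏ i ∈ D, ω (x i))

/-- `p` depends only on the coordinates in `D` -/
def DepOn (D : Finset (Fin n)) (p : (Fin n → ℕ) → Prop) : Prop :=
  ∀ x y : Fin n → ℕ, (∀ i ∈ D, x i = y i) → (p x ↔ p y)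

lemma gen_congr {ω : ℕ → ℤ} {D : Finset (Fin n)} {p q : (Fin n → ℕ) → Prop}
    (h : ∀ x, p x ↔ q x) : gen ω D p = gen ω D q := by
  have : p = q := funext fun x => propext (h x)
  rw [this]

open Classical in
lemma gen_union (ω : ℕ → ℤ) {D1 D2 : Finset (Fin n)} (hd : Disjoint D1 D2)
    {p1 p2 : (Fin n → ℕ) → Prop} (h1 : DepOn D1 p1) (h2 : DepOn D2 p2) :
    gen ω (D1 ∪ D2) (fun x => p1 x ∧ p2 x) = gen ω D1 p1 * gen ω D2 p2 := by
  ext s
  rw [PowerSeries.coeff_mul]
  unfold gen
  simp only [PowerSeries.coeff_mk]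
  simp_rw [Finset.sum_mul_sum, ← Finset.sum_product']
  rw [Finset.sum_sigma']
  refine Finset.sum_bij' (fun z _ => (⟨(∑ i ∈ D1, z i, ∑ i ∈ D2, z i),
      (fun i => if i ∈ D1 then z i else 0, fun i => if i ∈ D2 then z i else 0)⟩ :
        Σ _ : ℕ × ℕ, (Fin n → ℕ) × (Fin n → ℕ)))
    (fun a _ => fun i => a.2.1 i + a.2.2 i) ?_ ?_ ?_ ?_ ?_
  · intro z hz
    simp only [Finset.mem_filter, Finset.mem_piAntidiag] at hz
    obtain ⟨⟨hz1, hz2⟩, hz3, hz4⟩ := hz
    rw [Finset.sum_union hd] at hz1
    rw [Finset.mem_sigma, HasAntidiagonal.mem_antidiagonal, Finset.mem_product, Finset.mem_filter,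
      Finset.mem_filter, Finset.mem_piAntidiag, Finset.mem_piAntidiag]
    refine ⟨hz1, ⟨⟨?_, ?_⟩, ?_⟩, ⟨⟨?_, ?_⟩, ?_⟩⟩
    · apply Finset.sum_congr rfl
      intro i hi; simp [hi]
    · intro i hi; by_contra hc; simp [hc] at hi
    · exact (h1 _ _ (by intro i hi; simp [hi])).1 hz3
    · apply Finset.sum_congr rfl
      intro i hi; simp [hi]
    · intro i hi; by_contra hc; simp [hc] at hi
    · exact (h2 _ _ (by intro i hi; simp [hi])).1 hz4
  · rintro ⟨⟨a, b⟩, x, y⟩ h
    rw [Finset.mem_sigma, HasAntidiagonal.mem_antidiagonal, Finset.mem_product, Finset.mem_filter,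
      Finset.mem_filter, Finset.mem_piAntidiag, Finset.mem_piAntidiag] at h
    obtain ⟨hab, ⟨⟨hx1, hx2⟩, hx3⟩, ⟨⟨hy1, hy2⟩, hy3⟩⟩ := h
    simp only at hab hx1 hx2 hx3 hy1 hy2 hy3
    have hx0 : ∀ i ∈ D2, x i = 0 := by
      intro i hi
      by_contra hc
      exact (Finset.disjoint_left.1 hd (hx2 i hc)) hi
    have hy0 : ∀ i ∈ D1, y i = 0 := by
      intro i hi
      by_contra hc
      exact (Finset.disjoint_left.1 hd hi) (hy2 i hc)
    simp only [Finset.mem_filter, Finset.mem_piAntidiag]
    refine ⟨⟨?_, ?_⟩, ?_, ?_⟩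
    · rw [Finset.sum_union hd]
      have e1 : ∑ i ∈ D1, (x i + y i) = a := by
        rw [← hx1]; apply Finset.sum_congr rfl; intro i hi; rw [hy0 i hi, add_zero]
      have e2 : ∑ i ∈ D2, (x i + y i) = b := by
        rw [← hy1]; apply Finset.sum_congr rfl; intro i hi; rw [hx0 i hi, zero_add]
      rw [e1, e2, hab]
    · intro i hi
      rw [Finset.mem_union]
      by_contra hc
      push Not at hc
      have a1 : x i = 0 := by by_contra h; exact hc.1 (hx2 i h)
      have a2 : y i = 0 := by by_contra h; exact hc.2 (hy2 i h)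
      simp [a1, a2] at hi
    · exact (h1 _ _ (by intro i hi; simp [hy0 i hi])).1 hx3
    · exact (h2 _ _ (by intro i hi; simp [hx0 i hi])).1 hy3
  · intro z hz
    simp only [Finset.mem_filter, Finset.mem_piAntidiag] at hz
    obtain ⟨⟨hz1, hz2⟩, hz3, hz4⟩ := hz
    funext i
    simp only
    by_cases hi1 : i ∈ D1
    · have hi2 : i ∉ D2 := Finset.disjoint_left.1 hd hi1
      simp [hi1, hi2]
    · by_cases hi2 : i ∈ D2
      · simp [hi1, hi2]
      · simp only [hi1, hi2, if_false]
        by_contra hc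
        have := hz2 i (fun h => hc (by rw [h, add_zero]))
        rw [Finset.mem_union] at this
        tauto
  · rintro ⟨⟨a, b⟩, x, y⟩ h
    rw [Finset.mem_sigma, HasAntidiagonal.mem_antidiagonal, Finset.mem_product, Finset.mem_filter,
      Finset.mem_filter, Finset.mem_piAntidiag, Finset.mem_piAntidiag] at h
    obtain ⟨hab, ⟨⟨hx1, hx2⟩, hx3⟩, ⟨⟨hy1, hy2⟩, hy3⟩⟩ := h
    simp only at hab hx1 hx2 hx3 hy1 hy2 hy3
    have hx0 : ∀ i ∈ D2, x i = 0 := by
      intro i hi
      by_contra hc
      exact (Finset.disjoint_left.1 hd (hx2 i hc)) hi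
    have hy0 : ∀ i ∈ D1, y i = 0 := by
      intro i hi
      by_contra hc
      exact (Finset.disjoint_left.1 hd hi) (hy2 i hc)
    have e1 : ∑ i ∈ D1, (x i + y i) = a := by
      rw [← hx1]; apply Finset.sum_congr rfl; intro i hi; rw [hy0 i hi, add_zero]
    have e2 : ∑ i ∈ D2, (x i + y i) = b := by
      rw [← hy1]; apply Finset.sum_congr rfl; intro i hi; rw [hx0 i hi, zero_add]
    have e3 : (fun i => if i ∈ D1 then x i + y i else 0) = x := by
      funext i
      split_ifs with hi
      · rw [hy0 i hi, add_zero]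
      · by_contra hc; exact hi (hx2 i (fun h => hc h.symm))
    have e4 : (fun i => if i ∈ D2 then x i + y i else 0) = y := by
      funext i
      split_ifs with hi
      · rw [hx0 i hi, zero_add]
      · by_contra hc; exact hi (hy2 i (fun h => hc h.symm))
    simp only [e1, e2, e3, e4]
  · intro z hz
    rw [Finset.prod_union hd]
    congr 1
    · apply Finset.prod_congr rfl
      intro i hi; simp [hi]
    · apply Finset.prod_congr rfl
      intro i hi; simp [hi]

open Classical in
lemma gen_empty (ω : ℕ → ℤ) : gen ω (∅ : Finset (Fin n)) (fun _ => True) = 1 := by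
  ext s
  unfold gen
  rw [PowerSeries.coeff_mk, PowerSeries.coeff_one]
  rw [Finset.piAntidiag_empty]
  split_ifs with h <;> simp

open Classical in
lemma gen_single (ω : ℕ → ℤ) (i : Fin n) :
    gen ω ({i} : Finset (Fin n)) (fun _ => True) = PowerSeries.mk ω := by
  ext s
  unfold gen
  rw [PowerSeries.coeff_mk, PowerSeries.coeff_mk]
  rw [Finset.filter_true]
  have : (Finset.piAntidiag ({i} : Finset (Fin n)) s) = {Pi.single i s} := by
    ext x
    simp only [Finset.mem_piAntidiag, Finset.sum_singleton, Finset.mem_singleton]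
    constructor
    · rintro ⟨h1, h2⟩
      funext j
      by_cases hj : j = i
      · subst hj; simp [h1]
      · rw [Pi.single_eq_of_ne hj]
        by_contra hc; exact hj (h2 j hc)
    · rintro rfl
      refine ⟨by simp, ?_⟩
      intro j hj
      by_contra hc
      exact hj (Pi.single_eq_of_ne hc _)
  rw [this]
  simp

lemma depOn_true (D : Finset (Fin n)) : DepOn D (fun _ => True) := fun _ _ _ => Iff.rfl

lemma gen_free (ω : ℕ → ℤ) (B : Finset (Fin n)) :
    gen ω B (fun _ => True) = (PowerSeries.mk ω) ^ B.card := by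
  induction B using Finset.induction_on with
  | empty => rw [gen_empty]; simp
  | insert i s hi ih =>
    rw [Finset.card_insert_of_notMem hi, pow_succ', ← ih, ← gen_single ω i,
      ← gen_union ω (by simpa using hi) (depOn_true _) (depOn_true _)]
    rw [Finset.insert_eq]
    apply gen_congr
    intro x; simp

lemma depOn_mono {D E : Finset (Fin n)} {p : (Fin n → ℕ) → Prop} (h : DepOn D p) (hDE : D ⊆ E) :
    DepOn E p := fun x y hxy => h x y (fun i hi => hxy i (hDE hi))

/-- product over a family of disjoint sets -/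
lemma gen_biUnion {V : Type*} [DecidableEq V] (ω : ℕ → ℤ) (S : Finset V) (D : V → Finset (Fin n))
    (p : V → (Fin n → ℕ) → Prop) (hp : ∀ c ∈ S, DepOn (D c) (p c))
    (hd : ∀ c ∈ S, ∀ c' ∈ S, c ≠ c' → Disjoint (D c) (D c')) :
    gen ω (S.biUnion D) (fun x => ∀ c ∈ S, p c x) = ∏ c ∈ S, gen ω (D c) (p c) := by
  induction S using Finset.induction_on with
  | empty =>
    rw [Finset.biUnion_empty, Finset.prod_empty, ← gen_empty (n := n) ω]
    apply gen_congr; intro x; simp
  | insert a s ha ih =>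
    rw [Finset.prod_insert ha, Finset.biUnion_insert]
    rw [← ih (fun c hc => hp c (Finset.mem_insert_of_mem hc))
      (fun c hc c' hc' => hd c (Finset.mem_insert_of_mem hc) c' (Finset.mem_insert_of_mem hc'))]
    rw [← gen_union ω]
    · apply gen_congr
      intro x
      simp
    · rw [Finset.disjoint_biUnion_right]
      intro c hc
      exact hd a (Finset.mem_insert_self _ _) c (Finset.mem_insert_of_mem hc)
        (by rintro rfl; exact ha hc)
    · exact hp a (Finset.mem_insert_self _ _)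
    · intro x y hxy
      apply forall₂_congr
      intro c hc
      exact hp c (Finset.mem_insert_of_mem hc) x y
        (fun i hi => hxy i (Finset.mem_biUnion.2 ⟨c, hc, hi⟩))

lemma coeff_gen_le (ω : ℕ → ℤ) (D : Finset (Fin n)) (p : (Fin n → ℕ) → Prop) (K s : ℕ) :
    PowerSeries.coeff s (gen ω D (fun x => (∑ i ∈ D, x i ≤ K) ∧ p x)) =
      if s ≤ K then PowerSeries.coeff s (gen ω D p) else 0 := by
  classical
  unfold gen
  simp only [PowerSeries.coeff_mk]
  split_ifs with h
  · apply Finset.sum_congr _ (fun _ _ => rfl)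
    ext x
    simp only [Finset.mem_filter, Finset.mem_piAntidiag]
    constructor
    · rintro ⟨h1, h2, h3⟩; exact ⟨h1, h3⟩
    · rintro ⟨h1, h3⟩; exact ⟨h1, by rw [h1.1]; exact h, h3⟩
  · apply Finset.sum_eq_zero
    intro x hx
    simp only [Finset.mem_filter, Finset.mem_piAntidiag] at hx
    exfalso; apply h
    rw [← hx.1.1]; exact hx.2.1

lemma coeff_gen_ge (ω : ℕ → ℤ) (D : Finset (Fin n)) (p : (Fin n → ℕ) → Prop) (K s : ℕ) :
    PowerSeries.coeff s (gen ω D (fun x => (K ≤ ∑ i ∈ D, x i) ∧ p x)) =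
      if K ≤ s then PowerSeries.coeff s (gen ω D p) else 0 := by
  classical
  unfold gen
  simp only [PowerSeries.coeff_mk]
  split_ifs with h
  · apply Finset.sum_congr _ (fun _ _ => rfl)
    ext x
    simp only [Finset.mem_filter, Finset.mem_piAntidiag]
    constructor
    · rintro ⟨h1, h2, h3⟩; exact ⟨h1, h3⟩
    · rintro ⟨h1, h3⟩; exact ⟨h1, by rw [h1.1]; exact h, h3⟩
  · apply Finset.sum_eq_zero
    intro x hx
    simp only [Finset.mem_filter, Finset.mem_piAntidiag] at hx
    exfalso; apply h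
    rw [← hx.1.1]; exact hx.2.1

end Q224.Arb
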