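import Mathlib

namespace Q224.Arb

open Finset

/-- strictly monotone maps from `Fin n` correspond to `n`-subsets -/
noncomputable def smEquiv (L : Type*) [LinearOrder L] (n : ℕ) :
    {g : Fin n → L // StrictMono g} ≃ {S : Finset L // S.card = n} where
  toFun g := ⟨Finset.univ.image g.1, by
    rw [Finset.card_image_of_injective _ g.2.injective]; simp⟩
  invFun S := ⟨S.1.orderEmbOfFin S.2, (S.1.orderEmbOfFin S.2).strictMono⟩
  left_inv g := by
    apply Subtype.ext
    symm
    apply Finset.orderEmbOfFin_unique
    · intro x; simp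
    · exact g.2
  right_inv S := by
    apply Subtype.ext
    simp

lemma card_sm (K n : ℕ) : Nat.card {g : Fin n → Fin K // StrictMono g} = K.choose n := by
  rw [Nat.card_congr (smEquiv (Fin K) n), Nat.card_eq_fintype_card, Fintype.card_finset_len]
  simp

/-- number of descents at positions `< j` -/
def dcount {N q : ℕ} (w : Fin (N + 1) → Fin q) (j : ℕ) : ℕ :=
  (Finset.univ.filter (fun i : Fin N => i.val < j ∧ w i.succ < w i.castSucc)).card

lemma dcount_zero {N q : ℕ} (w : Fin (N + 1) → Fin q) : dcount w 0 = 0 := by
  simp [dcount]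

lemma dcount_succ {N q : ℕ} (w : Fin (N + 1) → Fin q) (i : Fin N) :
    dcount w (i.val + 1) = dcount w i.val + (if w i.succ < w i.castSucc then 1 else 0) := by
  unfold dcount
  have h : (Finset.univ.filter (fun l : Fin N => l.val < i.val + 1 ∧ w l.succ < w l.castSucc)) =
      (Finset.univ.filter (fun l : Fin N => l.val < i.val ∧ w l.succ < w l.castSucc)) ∪
      (if w i.succ < w i.castSucc then {i} else ∅) := by
    ext l
    simp only [Finset.mem_filter, Finset.mem_univ, true_and, Finset.mem_union]
    constructor
    · rintro ⟨h1, h2⟩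
      rcases Nat.lt_succ_iff_lt_or_eq.1 h1 with h3 | h3
      · exact Or.inl ⟨h3, h2⟩
      · right
        have : l = i := Fin.ext h3
        subst this
        rw [if_pos h2]; simp
    · rintro (⟨h1, h2⟩ | h)
      · exact ⟨by omega, h2⟩
      · split_ifs at h with h3
        · rw [Finset.mem_singleton] at h
          subst h
          exact ⟨by omega, h3⟩
        · simp at h
  rw [h, Finset.card_union_of_disjoint]
  · split_ifs <;> simp
  · rw [Finset.disjoint_left]
    intro l hl hl2
    split_ifs at hl2 with h3
    · rw [Finset.mem_singleton] at hl2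
      subst hl2
      simp at hl
    · simp at hl2

/-- The lexicographic encoding. -/
def enc {M q n : ℕ} (w : Fin n → Fin q) (s : Fin n → Fin M) : Fin n → Fin M ×ₗ (Fin q)ᵒᵈ :=
  fun j => toLex (s j, OrderDual.toDual (w j))

lemma enc_sm_iff {M q N : ℕ} (w : Fin (N + 1) → Fin q) (s : Fin (N + 1) → Fin M) :
    StrictMono (enc w s) ↔
      ∀ i : Fin N, (s i.castSucc).val + dcount w i.val < (s i.succ).val + dcount w (i.val + 1) := by
  rw [Fin.strictMono_iff_lt_succ]
  apply forall_congr'
  intro i
  rw [dcount_succ]
  unfold enc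
  rw [Prod.Lex.toLex_lt_toLex]
  simp only [OrderDual.toDual_lt_toDual, Fin.lt_def, Fin.ext_iff]
  split_ifs with h <;> omega

lemma card_fiber {M q N : ℕ} (w : Fin (N + 1) → Fin q) :
    Nat.card {s : Fin (N + 1) → Fin M // StrictMono (enc w s)} =
      (M + dcount w N).choose (N + 1) := by
  rw [← card_sm (M + dcount w N) (N + 1)]
  have mono : ∀ a b : ℕ, a ≤ b → dcount w a ≤ dcount w b := by
    intro a b hab
    apply Finset.card_le_card
    intro l hl
    simp only [Finset.mem_filter, Finset.mem_univ, true_and] at hl ⊢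
    exact ⟨lt_of_lt_of_le hl.1 hab, hl.2⟩
  apply Nat.card_congr
  refine Equiv.ofBijective (fun s => ⟨fun j => ⟨(s.1 j).val + dcount w j.val, ?_⟩, ?_⟩) ⟨?_, ?_⟩
  · have h1 := (s.1 j).isLt
    have h2 := mono j.val N (by omega)
    omega
  · have h := (enc_sm_iff w s.1).1 s.2
    rw [Fin.strictMono_iff_lt_succ]
    intro i
    rw [Fin.lt_def]
    simpa using h i
  · intro s t hst
    apply Subtype.ext
    funext j
    have h1 := congrFun (congrArg Subtype.val hst) j
    have h2 := congrArg Fin.val h1
    simp only at h2
    apply Fin.ext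
    omega
  · rintro ⟨g, hg⟩
    rw [Fin.strictMono_iff_lt_succ] at hg
    -- lower bound
    have hlow : ∀ j : Fin (N + 1), dcount w j.val ≤ (g j).val := by
      intro j
      induction j using Fin.induction with
      | zero => simp [dcount_zero]
      | succ i ih =>
        have h1 := hg i
        rw [Fin.lt_def] at h1
        have h2 := dcount_succ w i
        simp only [Fin.val_castSucc, Fin.val_succ] at ih ⊢
        split_ifs at h2 <;> omega
    have hup : ∀ k : ℕ, ∀ j : Fin (N + 1), j.val + k = N → (g j).val < M + dcount w j.val := by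
      intro k
      induction k with
      | zero =>
        intro j hj
        have h1 : j.val = N := by omega
        have h2 := (g j).isLt
        rw [h1]; exact h2
      | succ k ih =>
        intro j hj
        obtain ⟨i, rfl⟩ : ∃ i : Fin N, i.castSucc = j := ⟨⟨j.val, by omega⟩, by ext; simp⟩
        have h1 := hg i
        rw [Fin.lt_def] at h1
        have h2 := dcount_succ w i
        have h3 := ih i.succ (by simp at hj ⊢; omega)
        simp only [Fin.val_castSucc, Fin.val_succ] at h3 ⊢
        split_ifs at h2 <;> omega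
    have hub : ∀ j : Fin (N + 1), (g j).val < M + dcount w j.val := fun j =>
      hup (N - j.val) j (by omega)
    refine ⟨⟨fun j => ⟨(g j).val - dcount w j.val, by have := hlow j; have := hub j; omega⟩, ?_⟩, ?_⟩
    · rw [enc_sm_iff]
      intro i
      have h1 := hg i
      rw [Fin.lt_def] at h1
      have h2 := hlow i.castSucc
      have h3 := hlow i.succ
      simp only [Fin.val_castSucc, Fin.val_succ] at h2 h3 ⊢
      omega
    · apply Subtype.ext
      funext j
      apply Fin.ext
      have := hlow j
      simp only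
      omega

/-- content of a word -/
def cont {n q : ℕ} (w : Fin n → Fin q) (i : Fin q) : ℕ := (Finset.univ.filter (fun j => w j = i)).card

/-- slices of a finset of pairs -/
noncomputable def sliceEquiv (M q : ℕ) :
    Finset (Fin M ×ₗ (Fin q)ᵒᵈ) ≃ (Fin q → Finset (Fin M)) where
  toFun S := fun i => Finset.univ.filter (fun s => toLex (s, OrderDual.toDual i) ∈ S)
  invFun A := Finset.univ.filter (fun x => (ofLex x).1 ∈ A (OrderDual.ofDual (ofLex x).2))
  left_inv S := by
    ext x
    rw [Finset.mem_filter, Finset.mem_filter]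
    constructor
    · rintro ⟨-, -, h⟩; exact h
    · intro h; exact ⟨Finset.mem_univ _, Finset.mem_univ _, h⟩
  right_inv A := by
    funext i
    ext s
    simp

lemma card_slice {M q : ℕ} (S : Finset (Fin M ×ₗ (Fin q)ᵒᵈ)) (i : Fin q) :
    (sliceEquiv M q S i).card =
      (S.filter (fun x => (ofLex x).2 = OrderDual.toDual i)).card := by
  apply Finset.card_bij (fun s _ => toLex (s, OrderDual.toDual i))
  · intro s hs
    simp only [sliceEquiv, Equiv.coe_fn_mk, Finset.mem_filter, Finset.mem_univ, true_and] at hs
    simp [hs]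
  · intro s _ t _ h
    have := congrArg (fun x => (ofLex x).1) h
    simpa using this
  · intro x hx
    rw [Finset.mem_filter] at hx
    refine ⟨(ofLex x).1, ?_, ?_⟩
    · simp only [sliceEquiv, Equiv.coe_fn_mk, Finset.mem_filter, Finset.mem_univ, true_and]
      rw [← hx.2]
      exact hx.1
    · rw [← hx.2]
      rfl

lemma sum_card_slice {M q : ℕ} (S : Finset (Fin M ×ₗ (Fin q)ᵒᵈ)) :
    ∑ i, (sliceEquiv M q S i).card = S.card := by
  simp_rw [card_slice]
  rw [Finset.card_eq_sum_card_fiberwise (f := fun x => OrderDual.ofDual (ofLex x).2)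
    (t := Finset.univ) (by intro x _; simp)]
  rfl

/-- MacMahon / Worpitzky type identity restricted to any class of contents. -/
theorem macmahon (M q N : ℕ) (C : (Fin q → ℕ) → Prop) [DecidablePred C] :
    ∑ w : Fin (N + 1) → Fin q, (if C (cont w) then (M + dcount w N).choose (N + 1) else 0) =
      ∑ c ∈ (Finset.piAntidiag (Finset.univ : Finset (Fin q)) (N + 1)).filter C,
        ∏ i, M.choose (c i) := by
  classical
  -- left side
  have hL : ∑ w : Fin (N + 1) → Fin q,
      (if C (cont w) then (M + dcount w N).choose (N + 1) else 0) =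
      Nat.card {g : Fin (N + 1) → Fin M ×ₗ (Fin q)ᵒᵈ // StrictMono g ∧
        C (cont (fun j => OrderDual.ofDual (ofLex (g j)).2))} := by
    have e : {g : Fin (N + 1) → Fin M ×ₗ (Fin q)ᵒᵈ // StrictMono g ∧
        C (cont (fun j => OrderDual.ofDual (ofLex (g j)).2))} ≃
        Σ w : Fin (N + 1) → Fin q, {s : Fin (N + 1) → Fin M // StrictMono (enc w s) ∧
          C (cont w)} :=
      { toFun := fun g => ⟨fun j => OrderDual.ofDual (ofLex (g.1 j)).2,
          fun j => (ofLex (g.1 j)).1, g.2⟩
        invFun := fun x => ⟨enc x.1 x.2.1, x.2.2⟩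
        left_inv := fun g => rfl
        right_inv := fun x => rfl }
    rw [Nat.card_congr e, Nat.card_sigma]
    apply Finset.sum_congr rfl
    intro w _
    split_ifs with h
    · rw [← card_fiber (M := M) w]
      apply Nat.card_congr
      exact Equiv.subtypeEquivRight (fun s => by simp [h])
    · symm
      rw [Nat.card_eq_zero]
      left
      exact ⟨fun x => h x.2.2⟩
  rw [hL]
  have hM : Nat.card {g : Fin (N + 1) → Fin M ×ₗ (Fin q)ᵒᵈ // StrictMono g ∧
        C (cont (fun j => OrderDual.ofDual (ofLex (g j)).2))} =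
      Nat.card {A : Fin q → Finset (Fin M) // ∑ i, (A i).card = N + 1 ∧
        C (fun i => (A i).card)} := by
    have e1 : {g : Fin (N + 1) → Fin M ×ₗ (Fin q)ᵒᵈ // StrictMono g ∧
        C (cont (fun j => OrderDual.ofDual (ofLex (g j)).2))} ≃
        {x : {g : Fin (N + 1) → Fin M ×ₗ (Fin q)ᵒᵈ // StrictMono g} //
          C (cont (fun j => OrderDual.ofDual (ofLex (x.1 j)).2))} :=
      (Equiv.subtypeSubtypeEquivSubtypeInter _ _).symm
    have e2 : {x : {g : Fin (N + 1) → Fin M ×ₗ (Fin q)ᵒᵈ // StrictMono g} //
          C (cont (fun j => OrderDual.ofDual (ofLex (x.1 j)).2))} ≃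
        {S : {S : Finset (Fin M ×ₗ (Fin q)ᵒᵈ) // S.card = N + 1} //
          C (fun i => (sliceEquiv M q S.1 i).card)} := by
      refine (smEquiv _ (N + 1)).subtypeEquiv ?_
      intro g
      have : cont (fun j => OrderDual.ofDual (ofLex (g.1 j)).2) =
          fun i => (sliceEquiv M q ((smEquiv _ (N + 1)) g).1 i).card := by
        funext i
        rw [card_slice]
        unfold cont
        simp only [smEquiv, Equiv.coe_fn_mk]
        rw [Finset.filter_image, Finset.card_image_of_injective _ g.2.injective]
        rfl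
      rw [this]
    have e3 : {S : {S : Finset (Fin M ×ₗ (Fin q)ᵒᵈ) // S.card = N + 1} //
          C (fun i => (sliceEquiv M q S.1 i).card)} ≃
        {S : Finset (Fin M ×ₗ (Fin q)ᵒᵈ) // S.card = N + 1 ∧
          C (fun i => (sliceEquiv M q S i).card)} :=
      Equiv.subtypeSubtypeEquivSubtypeInter _
        (fun S : Finset (Fin M ×ₗ (Fin q)ᵒᵈ) => C (fun i => (sliceEquiv M q S i).card))
    have e4 : {S : Finset (Fin M ×ₗ (Fin q)ᵒᵈ) // S.card = N + 1 ∧
          C (fun i => (sliceEquiv M q S i).card)} ≃
        {A : Fin q → Finset (Fin M) // ∑ i, (A i).card = N + 1 ∧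
        C (fun i => (A i).card)} := by
      refine (sliceEquiv M q).subtypeEquiv ?_
      intro S
      rw [sum_card_slice]
    exact Nat.card_congr (((e1.trans e2).trans e3).trans e4)
  rw [hM, Nat.card_eq_fintype_card, Fintype.card_subtype]
  rw [Finset.card_eq_sum_card_fiberwise (f := fun A : Fin q → Finset (Fin M) => fun i => (A i).card)
    (t := (Finset.piAntidiag (Finset.univ : Finset (Fin q)) (N + 1)).filter C)]
  · apply Finset.sum_congr rfl
    intro c hc
    rw [Finset.mem_filter, Finset.mem_piAntidiag] at hc
    have : (Finset.univ.filter (fun A : Fin q → Finset (Fin M) => ∑ i, (A i).card = N + 1 ∧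
        C (fun i => (A i).card))).filter (fun A => (fun i => (A i).card) = c) =
        Fintype.piFinset (fun i => Finset.powersetCard (c i) (Finset.univ : Finset (Fin M))) := by
      ext A
      simp only [Finset.mem_filter, Finset.mem_univ, true_and, Fintype.mem_piFinset,
        Finset.mem_powersetCard, Finset.subset_univ]
      constructor
      · rintro ⟨-, h⟩ i
        exact congrFun h i
      · intro h
        have h' : (fun i => (A i).card) = c := funext h
        rw [h']
        refine ⟨⟨?_, hc.2⟩, rfl⟩
        rw [← hc.1.1]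
    rw [this, Fintype.card_piFinset]
    simp
  · intro A hA
    rw [Finset.mem_coe, Finset.mem_filter] at hA
    rw [Finset.mem_coe, Finset.mem_filter, Finset.mem_piAntidiag]
    exact ⟨⟨hA.2.1, by simp⟩, hA.2.2⟩

end Q224.Arb
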