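import Pool.Agent.Q224.Arb.Gen
import Pool.Agent.Q224.Arb.Alg
import Pool.Agent.Q224.Arb.MacMahon

namespace Q224.Arb

open Finset

set_option linter.unusedSectionVars false

lemma card_coe_fs {α : Type*} (S : Finset α) : Nat.card (S : Set α) = S.card := by simp

section tree

variable {V : Type*} (parent : V → V) (root : V)

/-- `u` is `v` or a descendant of `v` -/
def Le (u v : V) : Prop := ∃ k : ℕ, parent^[k] u = v

variable {parent root} (hroot : parent root = root) (reach : ∀ v, ∃ k : ℕ, parent^[k] v = root)

open Classical in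
noncomputable def depth (reach : ∀ v, ∃ k : ℕ, parent^[k] v = root) (v : V) : ℕ :=
  Nat.find (reach v)

include hroot

lemma iterate_root (k : ℕ) : parent^[k] root = root := by
  induction k with
  | zero => rfl
  | succ k ih => rw [Function.iterate_succ_apply, hroot, ih]

include reach

lemma depth_spec (v : V) : parent^[depth reach v] v = root := by
  classical
  exact Nat.find_spec (reach v)

lemma depth_le {v : V} {k : ℕ} (h : parent^[k] v = root) : depth reach v ≤ k := by
  classical
  exact Nat.find_min' (reach v) h

lemma depth_eq_zero {v : V} (h : depth reach v = 0) : v = root := by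
  have := depth_spec hroot reach v
  rwa [h] at this

lemma depth_root : depth reach root = 0 :=
  Nat.le_zero.1 (depth_le hroot reach (k := 0) rfl)

lemma depth_parent {v : V} (h : v ≠ root) : depth reach (parent v) + 1 = depth reach v := by
  obtain ⟨d, hd⟩ : ∃ d, depth reach v = d + 1 := by
    rcases Nat.exists_eq_succ_of_ne_zero (fun h0 => h (depth_eq_zero hroot reach h0)) with ⟨d, hd⟩
    exact ⟨d, hd⟩
  have h1 := depth_spec hroot reach v
  rw [hd, Function.iterate_succ_apply] at h1
  have h2 := depth_le hroot reach h1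
  have h3 := depth_spec hroot reach (parent v)
  rw [← Function.iterate_succ_apply] at h3
  have h4 := depth_le hroot reach h3
  omega

lemma depth_iterate {u : V} {k : ℕ} (hk : k ≤ depth reach u) :
    depth reach (parent^[k] u) + k = depth reach u := by
  induction k with
  | zero => rfl
  | succ k ih =>
    have h1 := ih (by omega)
    rw [Function.iterate_succ_apply']
    have h2 : parent^[k] u ≠ root := by
      intro h
      rw [h, depth_root hroot reach] at h1
      omega
    have := depth_parent hroot reach h2
    omega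

lemma Le_iff {u v : V} : Le parent u v ↔
    depth reach v ≤ depth reach u ∧ parent^[depth reach u - depth reach v] u = v := by
  constructor
  · rintro ⟨k, rfl⟩
    by_cases hk : k ≤ depth reach u
    · have := depth_iterate hroot reach hk
      refine ⟨by omega, ?_⟩
      congr 1
      rw [show depth reach u - depth reach (parent^[k] u) = k by omega]
    · push Not at hk
      have h1 : parent^[k] u = root := by
        rw [show k = (k - depth reach u) + depth reach u by omega, Function.iterate_add_apply,
          depth_spec hroot reach u, iterate_root hroot]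
      rw [h1, depth_root hroot reach]
      exact ⟨Nat.zero_le _, depth_spec hroot reach u⟩
  · rintro ⟨_, h⟩
    exact ⟨_, h⟩

lemma Le_step {u v : V} : Le parent u v ↔ u = v ∨ ∃ c, (c ≠ root ∧ parent c = v) ∧ Le parent u c := by
  constructor
  · intro h
    obtain ⟨h1, h2⟩ := (Le_iff hroot reach).1 h
    rcases Nat.eq_or_lt_of_le h1 with h3 | h3
    · left
      rw [h3, Nat.sub_self] at h2
      exact h2
    · right
      have h4 : depth reach u - depth reach v = (depth reach u - depth reach v - 1) + 1 := by omega
      refine ⟨parent^[depth reach u - depth reach v - 1] u, ⟨?_, ?_⟩, ⟨_, rfl⟩⟩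
      · intro h5
        have h6 := depth_iterate hroot reach
          (show depth reach u - depth reach v - 1 ≤ depth reach u by omega)
        rw [h5, depth_root hroot reach] at h6
        omega
      · rw [← Function.iterate_succ_apply' parent]
        rw [Nat.succ_eq_add_one, ← h4]
        exact h2
  · rintro (rfl | ⟨c, ⟨_, hc⟩, k, hk⟩)
    · exact ⟨0, rfl⟩
    · exact ⟨k + 1, by rw [Function.iterate_succ_apply', hk, hc]⟩

lemma child_unique {u v c c' : V} (hc : c ≠ root ∧ parent c = v) (hc' : c' ≠ root ∧ parent c' = v)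
    (h : Le parent u c) (h' : Le parent u c') : c = c' := by
  have e1 := depth_parent hroot reach hc.1
  have e2 := depth_parent hroot reach hc'.1
  rw [hc.2] at e1
  rw [hc'.2] at e2
  have h1 := ((Le_iff hroot reach).1 h).2
  have h2 := ((Le_iff hroot reach).1 h').2
  rw [← e1] at h1
  rw [← e2] at h2
  rw [← h1, ← h2]

lemma not_Le_child {v c : V} (hc : c ≠ root ∧ parent c = v) : ¬ Le parent v c := by
  intro h
  have e1 := depth_parent hroot reach hc.1
  rw [hc.2] at e1
  have := ((Le_iff hroot reach).1 h).1
  omega

end tree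

section main

variable {V : Type*} [Fintype V] [DecidableEq V] {n : ℕ} (parent : V → V) (root : V)
  (blk : Fin n → V)

open Classical in
/-- `D v` -/
noncomputable def DD (v : V) : Finset (Fin n) := Finset.univ.filter (fun i => Le parent (blk i) v)

/-- children -/
def Ch (v : V) : Finset V := Finset.univ.filter (fun c => c ≠ root ∧ parent c = v)

/-- block -/
def BB (v : V) : Finset (Fin n) := Finset.univ.filter (fun i => blk i = v)

def pF (m : ℕ) (v : V) (x : Fin n → ℕ) : Prop :=
  ∀ u, Le parent u v → ∑ i ∈ DD parent blk u, x i ≤ m * (DD parent blk u).card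

def pG (v : V) (x : Fin n → ℕ) : Prop :=
  ∀ u, Le parent u v → (DD parent blk u).card ≤ ∑ i ∈ DD parent blk u, x i

variable {parent root} (hroot : parent root = root) (reach : ∀ v, ∃ k : ℕ, parent^[k] v = root)
  {blk}

lemma DD_mono {u v : V} (h : Le parent u v) : DD parent blk u ⊆ DD parent blk v := by
  intro i hi
  simp only [DD, Finset.mem_filter, Finset.mem_univ, true_and] at hi ⊢
  obtain ⟨a, ha⟩ := hi
  obtain ⟨b, hb⟩ := h
  exact ⟨b + a, by rw [Function.iterate_add_apply, ha, hb]⟩

lemma depOn_pF (m : ℕ) (v : V) : DepOn (DD parent blk v) (pF parent blk m v) := by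
  intro x y hxy
  unfold pF
  apply forall₂_congr
  intro u hu
  rw [Finset.sum_congr rfl (fun i hi => hxy i (DD_mono hu hi))]

lemma depOn_pG (v : V) : DepOn (DD parent blk v) (pG parent blk v) := by
  intro x y hxy
  unfold pG
  apply forall₂_congr
  intro u hu
  rw [Finset.sum_congr rfl (fun i hi => hxy i (DD_mono hu hi))]

include hroot reach

lemma DD_eq (v : V) : DD parent blk v = BB blk v ∪ (Ch parent root v).biUnion (DD parent blk) := by
  ext i
  simp only [DD, BB, Ch, Finset.mem_union, Finset.mem_biUnion, Finset.mem_filter,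
    Finset.mem_univ, true_and]
  exact Le_step hroot reach

lemma disj1 (v : V) : Disjoint (BB blk v) ((Ch parent root v).biUnion (DD parent blk)) := by
  rw [Finset.disjoint_left]
  intro i hi hi2
  simp only [DD, BB, Ch, Finset.mem_biUnion, Finset.mem_filter, Finset.mem_univ, true_and] at hi hi2
  obtain ⟨c, hc, h⟩ := hi2
  rw [hi] at h
  exact not_Le_child hroot reach hc h

lemma disj2 (v : V) : ∀ c ∈ Ch parent root v, ∀ c' ∈ Ch parent root v, c ≠ c' →
    Disjoint (DD parent blk c) (DD parent blk c') := by
  intro c hc c' hc' hne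
  rw [Finset.disjoint_left]
  intro i hi hi2
  simp only [DD, Ch, Finset.mem_filter, Finset.mem_univ, true_and] at hi hi2 hc hc'
  exact hne (child_unique hroot reach hc hc' hi hi2)

lemma card_DD (v : V) : (DD parent blk v).card =
    (BB blk v).card + ∑ c ∈ Ch parent root v, (DD parent blk c).card := by
  conv_lhs => rw [DD_eq hroot reach v]
  rw [Finset.card_union_of_disjoint (disj1 hroot reach v), Finset.card_biUnion]
  exact disj2 hroot reach v

lemma pF_iff (m : ℕ) (v : V) (x : Fin n → ℕ) : pF parent blk m v x ↔
    (∑ i ∈ DD parent blk v, x i ≤ m * (DD parent blk v).card) ∧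
      (True ∧ ∀ c ∈ Ch parent root v, pF parent blk m c x) := by
  constructor
  · intro h
    refine ⟨h v ⟨0, rfl⟩, trivial, ?_⟩
    intro c hc u hu
    simp only [Ch, Finset.mem_filter, Finset.mem_univ, true_and] at hc
    exact h u ((Le_step hroot reach).2 (Or.inr ⟨c, hc, hu⟩))
  · rintro ⟨h1, -, h2⟩ u hu
    rcases (Le_step hroot reach).1 hu with rfl | ⟨c, hc, huc⟩
    · exact h1
    · exact h2 c (by simpa [Ch] using hc) u huc

lemma pG_iff (v : V) (x : Fin n → ℕ) : pG parent blk v x ↔
    ((DD parent blk v).card ≤ ∑ i ∈ DD parent blk v, x i) ∧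
      (True ∧ ∀ c ∈ Ch parent root v, pG parent blk c x) := by
  constructor
  · intro h
    refine ⟨h v ⟨0, rfl⟩, trivial, ?_⟩
    intro c hc u hu
    simp only [Ch, Finset.mem_filter, Finset.mem_univ, true_and] at hc
    exact h u ((Le_step hroot reach).2 (Or.inr ⟨c, hc, hu⟩))
  · rintro ⟨h1, -, h2⟩ u hu
    rcases (Le_step hroot reach).1 hu with rfl | ⟨c, hc, huc⟩
    · exact h1
    · exact h2 c (by simpa [Ch] using hc) u huc

lemma gen_children (ω : ℕ → ℤ) (v : V) (p : V → (Fin n → ℕ) → Prop)
    (hp : ∀ c, DepOn (DD parent blk c) (p c)) :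
    gen ω (DD parent blk v) (fun x => True ∧ ∀ c ∈ Ch parent root v, p c x) =
      (PowerSeries.mk ω) ^ (BB blk v).card *
        ∏ c ∈ Ch parent root v, gen ω (DD parent blk c) (p c) := by
  conv_lhs => rw [DD_eq hroot reach v]
  rw [gen_union ω (disj1 hroot reach v) (depOn_true _), gen_free, gen_biUnion]
  · intro c _; exact hp c
  · exact disj2 hroot reach v
  · intro x y hxy
    apply forall₂_congr
    intro c hc
    exact hp c x y (fun i hi => hxy i (Finset.mem_biUnion.2 ⟨c, hc, hi⟩))

/-- The weight `binom(m+1, c)`. -/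
def om (m : ℕ) : ℕ → ℤ := fun c => ((m + 1).choose c : ℤ)

omit [Fintype V] [DecidableEq V] hroot reach in
lemma mk_om (m : ℕ) : PowerSeries.mk (om m) = (((1 + Polynomial.X) ^ (m + 1) : Polynomial ℤ) :
    PowerSeries ℤ) := by
  ext s
  rw [PowerSeries.coeff_mk, Polynomial.coeff_coe, Polynomial.coeff_one_add_X_pow]
  rfl

open Polynomial in
theorem tree_main (m : ℕ) (hblk : Function.Surjective blk) (v : V) :
    ∃ f : ℤ[X], f.natDegree ≤ m * (DD parent blk v).card ∧
      gen (fun _ => 1) (DD parent blk v) (pF parent blk m v) = (f : PowerSeries ℤ) ∧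
      gen (om m) (DD parent blk v) (pG parent blk v) =
        ((X ^ (DD parent blk v).card * Phi (m * (DD parent blk v).card) f : ℤ[X]) :
          PowerSeries ℤ) := by
  classical
  set H : ℕ := Finset.univ.sup (depth reach) with hH
  have hsup : ∀ v, depth reach v ≤ H := fun v => Finset.le_sup (Finset.mem_univ v)
  induction hk : H - depth reach v using Nat.strong_induction_on generalizing v with
  | _ k ih =>
    have ih' : ∀ c ∈ Ch parent root v, ∃ f : ℤ[X], f.natDegree ≤ m * (DD parent blk c).card ∧
      gen (fun _ => 1) (DD parent blk c) (pF parent blk m c) = (f : PowerSeries ℤ) ∧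
      gen (om m) (DD parent blk c) (pG parent blk c) =
        ((X ^ (DD parent blk c).card * Phi (m * (DD parent blk c).card) f : ℤ[X]) :
          PowerSeries ℤ) := by
      intro c hc
      simp only [Ch, Finset.mem_filter, Finset.mem_univ, true_and] at hc
      have h1 := depth_parent hroot reach hc.1
      rw [hc.2] at h1
      have h2 := hsup c
      exact ih (H - depth reach c) (by omega) c rfl
    choose! f hf1 hf2 hf3 using ih'
    set b := (BB blk v).card with hb
    set e := ∑ c ∈ Ch parent root v, (DD parent blk c).card with he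
    have hcard : (DD parent blk v).card = b + e := card_DD hroot reach v
    have hb1 : 1 ≤ b := by
      obtain ⟨i, hi⟩ := hblk v
      rw [hb, Nat.succ_le_iff, Finset.card_pos]
      exact ⟨i, by simp [BB, hi]⟩
    obtain ⟨hP1, hP2⟩ := Phi_prod (Ch parent root v) (fun c => m * (DD parent blk c).card) f hf1
    rw [← Finset.mul_sum, ← he] at hP1 hP2
    set Nf := ∏ c ∈ Ch parent root v, f c with hNf
    have hNfc : (Nf : PowerSeries ℤ) = ∏ c ∈ Ch parent root v, (f c : PowerSeries ℤ) := by
      rw [hNf]
      exact map_prod (Polynomial.coeToPowerSeries.ringHom (R := ℤ)) _ _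
    set P : PowerSeries ℤ := (PowerSeries.mk (fun _ => (1 : ℤ))) ^ b * (Nf : PowerSeries ℤ) with hP
    have hgF : gen (fun _ => 1) (DD parent blk v)
        (fun x => True ∧ ∀ c ∈ Ch parent root v, pF parent blk m c x) = P := by
      rw [gen_children hroot reach _ v _ (fun c => depOn_pF m c), hP, hNfc]
      congr 1
      exact Finset.prod_congr rfl (fun c hc => hf2 c hc)
    set g : ℤ[X] := PowerSeries.trunc (m * (b + e) + 1) P with hg
    have hgc : ∀ s, g.coeff s = if s ≤ m * (b + e) then PowerSeries.coeff s P else 0 := by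
      intro s
      rw [hg, PowerSeries.coeff_trunc]
      simp only [Nat.lt_succ_iff]
    refine ⟨g, ?_, ?_, ?_⟩
    · rw [hcard, natDegree_le_iff_coeff_eq_zero]
      intro M hM
      rw [hgc, if_neg (by omega)]
    · ext s
      rw [gen_congr (pF_iff hroot reach m v), coeff_gen_le, hgF, Polynomial.coeff_coe, hgc, hcard]
    · have hgG : gen (om m) (DD parent blk v)
        (fun x => True ∧ ∀ c ∈ Ch parent root v, pG parent blk c x) =
          (((1 + X) ^ ((m + 1) * b) * (X ^ e * Phi (m * e) Nf) : ℤ[X]) : PowerSeries ℤ) := by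
        rw [gen_children hroot reach _ v _ (fun c => depOn_pG c), mk_om]
        rw [Finset.prod_congr rfl (fun c hc => hf3 c hc)]
        rw [hP1]
        have h1 : (∏ c ∈ Ch parent root v, ((X ^ (DD parent blk c).card *
            Phi (m * (DD parent blk c).card) (f c) : ℤ[X]) : PowerSeries ℤ)) =
            ((∏ c ∈ Ch parent root v, (X ^ (DD parent blk c).card *
            Phi (m * (DD parent blk c).card) (f c) : ℤ[X])) : ℤ[X]) := by
          symm
          exact map_prod (Polynomial.coeToPowerSeries.ringHom (R := ℤ)) _ _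
        rw [h1, ← Polynomial.coe_pow, ← Polynomial.coe_mul, ← pow_mul]
        congr 2
        rw [Finset.prod_mul_distrib, Finset.prod_pow_eq_pow_sum]
      ext s
      rw [gen_congr (pG_iff hroot reach v), coeff_gen_ge, hgG, Polynomial.coeff_coe,
        Polynomial.coeff_coe, hcard]
      rw [alg_step m b e hb1 Nf g hP2 hgc s]

lemma DD_root : DD parent blk root = Finset.univ := by
  ext i
  simp only [DD, Finset.mem_filter, Finset.mem_univ, true_and, iff_true]
  exact reach _

open Classical in
/-- The counting identity. -/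
theorem tree_count (m : ℕ) (hblk : Function.Surjective blk) :
    (Nat.card {x : Fin n → ℕ // ∀ v, ∑ i ∈ DD parent blk v, x i ≤ m * (DD parent blk v).card} : ℤ) =
      ∑ c ∈ (Finset.piAntidiag (Finset.univ : Finset (Fin n)) n).filter
        (fun c => ∀ v, (DD parent blk v).card ≤ ∑ i ∈ DD parent blk v, c i),
        ∏ i, ((m + 1).choose (c i) : ℤ) := by
  obtain ⟨f, hf1, hf2, hf3⟩ := tree_main hroot reach m hblk root
  have hD : DD parent blk root = Finset.univ := DD_root hroot reach
  rw [hD, Finset.card_univ, Fintype.card_fin] at hf1 hf3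
  rw [hD] at hf2
  have hF : ∀ x, pF parent blk m root x ↔
      ∀ v, ∑ i ∈ DD parent blk v, x i ≤ m * (DD parent blk v).card := by
    intro x
    exact ⟨fun h v => h v (reach v), fun h v _ => h v⟩
  have hG : ∀ x, pG parent blk root x ↔
      ∀ v, (DD parent blk v).card ≤ ∑ i ∈ DD parent blk v, x i := by
    intro x
    exact ⟨fun h v => h v (reach v), fun h v _ => h v⟩
  have h1 := congrArg (PowerSeries.coeff n) hf3
  rw [Polynomial.coeff_coe, Polynomial.coeff_X_pow_mul', if_pos le_rfl, Nat.sub_self,
    Phi_coeff_zero _ _ hf1, gen_congr hG] at h1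
  unfold gen at h1
  rw [PowerSeries.coeff_mk] at h1
  unfold om at h1
  have h2 : ∀ s, f.coeff s = (((Finset.piAntidiag (Finset.univ : Finset (Fin n)) s).filter
      (fun x => ∀ v, ∑ i ∈ DD parent blk v, x i ≤ m * (DD parent blk v).card)).card : ℤ) := by
    intro s
    rw [← Polynomial.coeff_coe, ← hf2, gen_congr hF]
    unfold gen
    rw [PowerSeries.coeff_mk]
    simp only [Finset.prod_const_one, Finset.sum_const, nsmul_eq_mul, mul_one, Nat.cast_inj]
    apply congrArg
    ext x
    simp only [Finset.mem_filter]
  have h1' : ∑ c ∈ (Finset.piAntidiag (Finset.univ : Finset (Fin n)) n).filter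
        (fun c => ∀ v, (DD parent blk v).card ≤ ∑ i ∈ DD parent blk v, c i),
        ∏ i, ((m + 1).choose (c i) : ℤ) = ∑ s ∈ Finset.range (m * n + 1), f.coeff s := by
    rw [← h1]
    apply Finset.sum_congr _ (fun _ _ => rfl)
    ext x
    simp only [Finset.mem_filter]
  rw [h1']
  simp_rw [h2]
  rw [← Nat.cast_sum]
  congr 1
  have h3 : {x : Fin n → ℕ | ∀ v, ∑ i ∈ DD parent blk v, x i ≤ m * (DD parent blk v).card} =
      (((Finset.range (m * n + 1)).biUnion (fun s =>
        (Finset.piAntidiag (Finset.univ : Finset (Fin n)) s).filter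
      (fun x => ∀ v, ∑ i ∈ DD parent blk v, x i ≤ m * (DD parent blk v).card)) :
        Finset (Fin n → ℕ)) : Set (Fin n → ℕ)) := by
    ext x
    simp only [Set.mem_ofPred_eq, Finset.coe_biUnion, Finset.mem_coe, Finset.mem_range,
      Set.mem_iUnion, Finset.mem_filter, Finset.mem_piAntidiag]
    constructor
    · intro h
      refine ⟨∑ i, x i, ?_, ⟨rfl, by simp⟩, h⟩
      have := h root
      rw [hD] at this
      simp at this
      omega
    · rintro ⟨s, _, _, h⟩
      exact h
  have h4 : Nat.card {x : Fin n → ℕ // ∀ v, ∑ i ∈ DD parent blk v, x i ≤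
      m * (DD parent blk v).card} =
      ((Finset.range (m * n + 1)).biUnion (fun s =>
        (Finset.piAntidiag (Finset.univ : Finset (Fin n)) s).filter
      (fun x => ∀ v, ∑ i ∈ DD parent blk v, x i ≤ m * (DD parent blk v).card))).card := by
    have h5 : Nat.card {x : Fin n → ℕ // ∀ v, ∑ i ∈ DD parent blk v, x i ≤
      m * (DD parent blk v).card} = Nat.card (((Finset.range (m * n + 1)).biUnion (fun s =>
        (Finset.piAntidiag (Finset.univ : Finset (Fin n)) s).filter
      (fun x => ∀ v, ∑ i ∈ DD parent blk v, x i ≤ m * (DD parent blk v).card)) :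
        Finset (Fin n → ℕ)) : Set (Fin n → ℕ)) := by
      rw [← h3]; rfl
    rw [h5, card_coe_fs]
  rw [h4, Finset.card_biUnion]
  intro s _ t _ hst
  change Disjoint _ _
  rw [Finset.disjoint_left]
  intro x hx hx2
  simp only [Finset.mem_filter, Finset.mem_piAntidiag] at hx hx2
  exact hst (hx.1.1.symm.trans hx2.1.1)

end main

end Q224.Arb
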